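import Mathlib

/-!
Good measures for `-Δu + e^u - 1 = μ`, `u = 0` on `∂Ω`, in a Euclidean space `E` of dimension `N`,
and the `L log L` capacity.
-/

set_option autoImplicit false

open MeasureTheory
open scoped ContDiff

namespace Pool.Agent.H30.GOM

variable {E : Type} [NormedAddCommGroup E] [InnerProductSpace ℝ E] [FiniteDimensional ℝ E]
  [MeasurableSpace E] [BorelSpace E]

/-- `μ` is a good measure for `g(t) = e^t - 1` in `Ω`: the problem `-Δu + e^u - 1 = μ` in `Ω`,
`u = 0` on `∂Ω`, has a solution `u ∈ L¹(Ω)` with `e^u - 1 ∈ L¹(Ω)`, in the sense of the test functions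
`ζ ∈ C^∞` with `ζ = 0` on `∂Ω`. The integral against `μ` is the difference of the integrals against
the two parts of its Jordan decomposition. -/
def IsGood (Ω : Set E) (μ : SignedMeasure E) : Prop :=
  ∃ u : E → ℝ, IntegrableOn u Ω ∧ IntegrableOn (fun x => Real.exp (u x) - 1) Ω ∧
    ∀ ζ : E → ℝ, ContDiff ℝ ∞ ζ → (∀ x ∈ frontier Ω, ζ x = 0) →
      -(∫ x in Ω, u x * Laplacian.laplacian ζ x) + (∫ x in Ω, (Real.exp (u x) - 1) * ζ x) =
        (∫ x, ζ x ∂μ.toJordanDecomposition.posPart) - ∫ x, ζ x ∂μ.toJordanDecomposition.negPart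

/-- The Newtonian potential `s ↦ κ ∫ s(y) / |x - y|^(N-2) dy` of a function, `κ = 1/(N(N-2)ω_N)` with
`ω_N` the volume of the unit ball, so that `-Δ (newton s) = s`. -/
noncomputable def newton (N : ℕ) (s : E → ℝ) (x : E) : ℝ :=
  1 / (N * (N - 2) * (volume (Metric.ball (0 : E) 1)).toReal) * ∫ y, s y / ‖x - y‖ ^ (N - 2)

/-- Competitors for the capacity of `K`: nonnegative `s ∈ C_c^∞(E)` of mass at most `δ` whose
Newtonian potential is at least `1` on `K` and at most `B` everywhere. -/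
def Competitor (N : ℕ) (K : Set E) (δ B : ℝ) (s : E → ℝ) : Prop :=
  ContDiff ℝ ∞ s ∧ HasCompactSupport s ∧ (∀ x, 0 ≤ s x) ∧ ∫ x, s x ≤ δ ∧
    (∀ x ∈ K, 1 ≤ newton N s x) ∧ ∀ x, newton N s x ≤ B

/-- The capacity `cap(K) = inf_B lim_{δ → 0} inf { ∫ s log⁺ s }`, the inner infimum over the
competitors `s` (it increases as `δ` decreases, so that the limit is a supremum). -/
noncomputable def cap (N : ℕ) (K : Set E) : ENNReal :=
  ⨅ B : ℝ, ⨆ (δ : ℝ) (_ : 0 < δ), ⨅ (s : E → ℝ) (_ : Competitor N K δ B s),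
    ENNReal.ofReal (∫ x, s x * Real.posLog (s x))

end Pool.Agent.H30.GOM
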