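import Pool.Agent.H30.GOM.Old
import Pool.Agent.H30.GOM.Defs

set_option autoImplicit false

open MeasureTheory Set
open scoped ContDiff

namespace Pool.Agent.H30.GOM

section
variable {E : Type} [NormedAddCommGroup E] [InnerProductSpace ℝ E] [FiniteDimensional ℝ E]
  [MeasurableSpace E] [BorelSpace E] {E' : Type} [NormedAddCommGroup E'] [InnerProductSpace ℝ E']
  [FiniteDimensional ℝ E'] [MeasurableSpace E'] [BorelSpace E']

/-- goodness in terms of two measures -/
def Good2 (Ω : Set E) (P Q : Measure E) : Prop :=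
  ∃ u : E → ℝ, IntegrableOn u Ω ∧ IntegrableOn (fun x => Real.exp (u x) - 1) Ω ∧
    ∀ ζ : E → ℝ, ContDiff ℝ ∞ ζ → (∀ x ∈ frontier Ω, ζ x = 0) →
      -(∫ x in Ω, u x * Laplacian.laplacian ζ x) + (∫ x in Ω, (Real.exp (u x) - 1) * ζ x) =
        (∫ x, ζ x ∂P) - ∫ x, ζ x ∂Q

omit [MeasurableSpace E] [BorelSpace E] [MeasurableSpace E'] [BorelSpace E'] in
lemma lap_comp (e : E ≃ₗᵢ[ℝ] E') {f : E' → ℝ} (hf : ContDiff ℝ ∞ f) (x : E) :
    Laplacian.laplacian (fun x => f (e x)) x = Laplacian.laplacian f (e x) := by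
  have h1 := InnerProductSpace.laplacian_eq_iteratedFDeriv_orthonormalBasis (fun x => f (e x))
    (stdOrthonormalBasis ℝ E)
  have h2 := InnerProductSpace.laplacian_eq_iteratedFDeriv_orthonormalBasis f
    ((stdOrthonormalBasis ℝ E).map e)
  rw [h1, h2]
  refine Finset.sum_congr rfl fun i _ => ?_
  have h3 := ContinuousLinearMap.iteratedFDeriv_comp_right (i := 2)
    (e.toContinuousLinearEquiv : E →L[ℝ] E') (hf.of_le (m := 2) ENat.LEInfty.out) x le_rfl
  have h4 : (fun x => f (e x)) = f ∘ (e.toContinuousLinearEquiv : E →L[ℝ] E') := rfl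
  rw [h4, h3]
  show (iteratedFDeriv ℝ 2 f (e x)) (fun j => e (![_, _] j)) = _
  congr 1
  funext j
  fin_cases j <;> simp

lemma good_of (e : E ≃ₗᵢ[ℝ] E') {Ω : Set E} {P Q : Measure E} (h : Good2 Ω P Q) :
    Good2 (e.symm ⁻¹' Ω) (P.map e) (Q.map e) := by
  obtain ⟨u, hu, hg, hsol⟩ := h
  have mp := e.symm.measurePreserving
  have me : MeasurableEmbedding e.symm := e.symm.toHomeomorph.measurableEmbedding
  have me' : MeasurableEmbedding e := e.toHomeomorph.measurableEmbedding
  refine ⟨fun y => u (e.symm y), (mp.integrableOn_comp_preimage me).2 hu,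
    (mp.integrableOn_comp_preimage me).2 hg, fun ζ hζ hζ0 => ?_⟩
  have h1 := hsol (fun x => ζ (e x)) (hζ.comp e.toContinuousLinearEquiv.contDiff) fun x hx => by
    refine hζ0 _ ?_
    have : e.symm ⁻¹' frontier Ω = frontier (e.symm ⁻¹' Ω) :=
      e.symm.toHomeomorph.preimage_frontier Ω
    rw [← this]
    simpa using hx
  rw [me'.integral_map, me'.integral_map]
  rw [← h1]
  congr 1
  · rw [← mp.setIntegral_preimage_emb me]
    congr 2
    funext y
    rw [lap_comp e hζ]
    simp
  · rw [← mp.setIntegral_preimage_emb me]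
    congr 1
    funext y
    simp

lemma good_iff (e : E ≃ₗᵢ[ℝ] E') {Ω : Set E} {P Q : Measure E} :
    Good2 Ω P Q ↔ Good2 (e.symm ⁻¹' Ω) (P.map e) (Q.map e) := by
  refine ⟨good_of e, fun h => ?_⟩
  have h1 := good_of e.symm h
  have hm : ∀ R : Measure E, (R.map e).map e.symm = R := fun R => by
    rw [Measure.map_map e.symm.continuous.measurable e.continuous.measurable]
    simp
  rw [hm, hm] at h1
  convert h1 using 1
  ext x
  simp

lemma newton_comp (e : E ≃ₗᵢ[ℝ] E') (N : ℕ) (s : E → ℝ) (y : E') :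
    newton N (fun y => s (e.symm y)) y = newton N s (e.symm y) := by
  have mp := e.symm.measurePreserving
  have me : MeasurableEmbedding e.symm := e.symm.toHomeomorph.measurableEmbedding
  unfold newton
  congr 1
  · congr 3
    rw [← mp.measure_preimage measurableSet_ball.nullMeasurableSet]
    congr 1
    ext z
    simp
  · rw [← mp.integral_comp me]
    congr 1
    funext z
    rw [← map_sub, e.symm.norm_map]

lemma comp_of (e : E ≃ₗᵢ[ℝ] E') {N : ℕ} {K : Set E} {δ B : ℝ} {s : E → ℝ}
    (h : Competitor N K δ B s) :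
    Competitor N (e.symm ⁻¹' K) δ B (fun y => s (e.symm y)) := by
  obtain ⟨h1, h2, h3, h4, h5, h6⟩ := h
  have mp := e.symm.measurePreserving
  have me : MeasurableEmbedding e.symm := e.symm.toHomeomorph.measurableEmbedding
  refine ⟨h1.comp e.symm.toContinuousLinearEquiv.contDiff,
    h2.comp_homeomorph e.symm.toHomeomorph, fun y => h3 _, ?_, fun y hy => ?_, fun y => ?_⟩
  · rw [mp.integral_comp me]; exact h4
  · rw [newton_comp]; exact h5 _ hy
  · rw [newton_comp]; exact h6 _

lemma cap_le (e : E ≃ₗᵢ[ℝ] E') (N : ℕ) (K : Set E) : cap N (e.symm ⁻¹' K) ≤ cap N K := by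
  have mp := e.symm.measurePreserving
  have me : MeasurableEmbedding e.symm := e.symm.toHomeomorph.measurableEmbedding
  refine iInf_mono fun B => iSup₂_mono fun δ hδ => le_iInf₂ fun s hs => ?_
  refine (iInf₂_le _ (comp_of e hs)).trans (le_of_eq ?_)
  congr 1
  exact mp.integral_comp me (fun x => s x * Real.posLog (s x))

lemma cap_eq (e : E ≃ₗᵢ[ℝ] E') (N : ℕ) (K : Set E) : cap N (e.symm ⁻¹' K) = cap N K := by
  refine le_antisymm (cap_le e N K) ?_
  have h := cap_le e.symm N (e.symm ⁻¹' K)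
  have h2 : e.symm.symm ⁻¹' (e.symm ⁻¹' K) = K := by
    ext x
    simp
  rwa [h2] at h

end

lemma old_comp {N : ℕ} {K : Set (EuclideanSpace ℝ (Fin N))} {δ B : ℝ}
    {s : EuclideanSpace ℝ (Fin N) → ℝ} : Old.Competitor K δ B s ↔ Competitor N K δ B s :=
  ⟨fun h => ⟨h.1, h.2, h.3, h.4, h.5, h.6⟩, fun ⟨h1, h2, h3, h4, h5, h6⟩ =>
    ⟨h1, h2, h3, h4, h5, h6⟩⟩

lemma old_cap {N : ℕ} (K : Set (EuclideanSpace ℝ (Fin N))) : Old.cap K = cap N K := by
  unfold Old.cap cap
  simp only [old_comp]

theorem main (E : Type) [NormedAddCommGroup E] [InnerProductSpace ℝ E] [FiniteDimensional ℝ E]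
    [MeasurableSpace E] [BorelSpace E] (N : ℕ) (hE : Module.finrank ℝ E = N) (hN : 3 ≤ N)
    (Ω : Set E) (hΩ : IsOpen Ω) (hb : Bornology.IsBounded Ω) (μ : SignedMeasure E)
    (hμ : μ.totalVariation Ωᶜ = 0) :
    IsGood Ω μ ↔ ∀ K ⊆ Ω, IsCompact K → μ.toJordanDecomposition.posPart K ≤ cap N K := by
  subst hE
  let e : E ≃ₗᵢ[ℝ] EuclideanSpace ℝ (Fin (Module.finrank ℝ E)) := (stdOrthonormalBasis ℝ E).repr
  set P := μ.toJordanDecomposition.posPart with hP
  set Q := μ.toJordanDecomposition.negPart with hQ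
  have me : MeasurableEmbedding e := e.toHomeomorph.measurableEmbedding
  let j : JordanDecomposition (EuclideanSpace ℝ (Fin (Module.finrank ℝ E))) :=
    { posPart := P.map e
      negPart := Q.map e
      posPart_finite := Measure.isFiniteMeasure_map P e
      negPart_finite := Measure.isFiniteMeasure_map Q e
      mutuallySingular := by
        obtain ⟨S, hS, hS1, hS2⟩ := μ.toJordanDecomposition.mutuallySingular
        refine ⟨e.symm ⁻¹' S, e.symm.continuous.measurable hS, ?_, ?_⟩
        · rw [me.map_apply]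
          convert hS1 using 2
          ext x; simp
        · rw [me.map_apply]
          convert hS2 using 2
          ext x; simp }
  have hj : j.toSignedMeasure.toJordanDecomposition = j :=
    SignedMeasure.toJordanDecomposition_eq rfl
  have hres := Old.old_result hN (e.symm ⁻¹' Ω) (hΩ.preimage e.symm.continuous) ?_
    j.toSignedMeasure ?_
  · have hg : Old.IsGood (e.symm ⁻¹' Ω) j.toSignedMeasure ↔ Good2 (e.symm ⁻¹' Ω) (P.map e) (Q.map e) := by
      unfold Old.IsGood
      rw [hj]
      rfl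
    rw [hg, ← good_iff e] at hres
    have hg2 : IsGood Ω μ ↔ Good2 Ω P Q := Iff.rfl
    rw [hg2, hres, hj]
    constructor
    · intro h K hK hKc
      have h1 := h (e.symm ⁻¹' K) (fun x hx => hK hx)
        (e.symm.toHomeomorph.isCompact_preimage.2 hKc)
      rw [old_cap, cap_eq e] at h1
      have h2 : j.posPart (e.symm ⁻¹' K) = P K := by
        show (P.map e) (e.symm ⁻¹' K) = P K
        rw [me.map_apply]
        congr 1
        ext x; simp
      rwa [h2] at h1
    · intro h K hK hKc
      have h1 := h (e ⁻¹' K) (fun x hx => by simpa using hK hx)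
        (e.toHomeomorph.isCompact_preimage.2 hKc)
      rw [old_cap]
      have h2 : j.posPart K = P (e ⁻¹' K) := by
        show (P.map e) K = _
        rw [me.map_apply]
      have h3 : cap (Module.finrank ℝ E) (e ⁻¹' K) = cap (Module.finrank ℝ E) K := by
        have := cap_eq e (Module.finrank ℝ E) (e ⁻¹' K)
        rw [← this]
        congr 1
        ext x; simp
      rw [h2, ← h3]
      exact h1
  · have : e.symm ⁻¹' Ω = e '' Ω := by
      ext x
      constructor
      · intro hx; exact ⟨e.symm x, hx, by simp⟩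
      · rintro ⟨y, hy, rfl⟩; simpa using hy
    rw [this]
    exact e.lipschitz.isBounded_image hb
  · rw [SignedMeasure.totalVariation, hj]
    rw [SignedMeasure.totalVariation, Measure.add_apply, add_eq_zero] at hμ
    have hc : e ⁻¹' (e.symm ⁻¹' Ω)ᶜ = Ωᶜ := by
      ext x; simp
    show (P.map e + Q.map e) (e.symm ⁻¹' Ω)ᶜ = 0
    rw [Measure.add_apply, me.map_apply, me.map_apply, hc, hμ.1, hμ.2, add_zero]

end Pool.Agent.H30.GOM
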