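import Pool.Agent.H19.Good.Fin4
import Pool.Agent.H19.Good.Nec4

/-!
Good measures for `-Δu + e^u - 1 = μ`, `u = 0` on `∂Ω`, in dimension `N ≥ 3`:
`μ` is good if and only if `μ⁺(K) ≤ cap(K)` for every compact `K ⊆ Ω`, where `cap` is an explicit
`L log L` capacity.
-/

open MeasureTheory Set Filter Topology
open scoped ENNReal ContDiff

namespace Pool.Agent.H30.GOM.Old

noncomputable section

/-- `μ` is a good measure for `g(t) = e^t - 1` in `Ω`: the problem `-Δu + e^u - 1 = μ` in `Ω`,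
`u = 0` on `∂Ω`, has a solution `u ∈ L¹(Ω)` with `e^u - 1 ∈ L¹(Ω)`, in the sense of the test functions
`ζ ∈ C^∞` with `ζ = 0` on `∂Ω`. The integral against `μ` is the difference of the integrals against
the two parts of its Jordan decomposition. -/
def IsGood {N : ℕ} (Ω : Set (EuclideanSpace ℝ (Fin N)))
    (μ : SignedMeasure (EuclideanSpace ℝ (Fin N))) : Prop :=
  ∃ u : EuclideanSpace ℝ (Fin N) → ℝ,
    IntegrableOn u Ω volume ∧ IntegrableOn (fun x => Real.exp (u x) - 1) Ω volume ∧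
    ∀ ζ : EuclideanSpace ℝ (Fin N) → ℝ, ContDiff ℝ ∞ ζ → (∀ x ∈ frontier Ω, ζ x = 0) →
      -(∫ x in Ω, u x * Laplacian.laplacian ζ x) + (∫ x in Ω, (Real.exp (u x) - 1) * ζ x) =
        (∫ x, ζ x ∂μ.toJordanDecomposition.posPart) - (∫ x, ζ x ∂μ.toJordanDecomposition.negPart)

/-- The Newtonian potential `s ↦ κ ∫ s(y) / |x - y|^(N-2) dy` of a function, `κ = 1/(N(N-2)ω_N)` with
`ω_N` the volume of the unit ball, so that `-Δ (newton s) = s`. -/
def newton {N : ℕ} (s : EuclideanSpace ℝ (Fin N) → ℝ) (x : EuclideanSpace ℝ (Fin N)) : ℝ :=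
  1 / (N * (N - 2) * (volume (Metric.ball (0 : EuclideanSpace ℝ (Fin N)) 1)).toReal) *
    ∫ y, s y / ‖x - y‖ ^ (N - 2)

/-- Competitors for the capacity of `K`: nonnegative `s ∈ C_c^∞(ℝ^N)` of mass at most `δ` whose
Newtonian potential is at least `1` on `K` and at most `B` everywhere. -/
structure Competitor {N : ℕ} (K : Set (EuclideanSpace ℝ (Fin N))) (δ B : ℝ)
    (s : EuclideanSpace ℝ (Fin N) → ℝ) : Prop where
  smooth : ContDiff ℝ ∞ s
  compact_support : HasCompactSupport s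
  nonneg : ∀ x, 0 ≤ s x
  mass : ∫ x, s x ≤ δ
  one_le : ∀ x ∈ K, 1 ≤ newton s x
  bounded : ∀ x, newton s x ≤ B

/-- The capacity `cap(K) = inf_B lim_{δ → 0} inf { ∫ s log⁺ s }`, the inner infimum over the
competitors `s` (it increases as `δ` decreases, so that the limit is a supremum). -/
def cap {N : ℕ} (K : Set (EuclideanSpace ℝ (Fin N))) : ℝ≥0∞ :=
  ⨅ B : ℝ, ⨆ (δ : ℝ) (_ : 0 < δ), ⨅ (s : EuclideanSpace ℝ (Fin N) → ℝ) (_ : Competitor K δ B s),
    ENNReal.ofReal (∫ x, s x * Real.posLog (s x))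

lemma newton_eq {N : ℕ} (s : EuclideanSpace ℝ (Fin N) → ℝ) (x : EuclideanSpace ℝ (Fin N)) :
    newton s x = H19.Good.pot s x := by
  unfold newton H19.Good.pot H19.Good.Phi H19.Good.kap
  rw [← integral_const_mul]
  refine integral_congr_ae (Eventually.of_forall fun y => ?_)
  simp only
  ring

lemma competitor_iff {N : ℕ} {K : Set (EuclideanSpace ℝ (Fin N))} {δ B : ℝ}
    {s : EuclideanSpace ℝ (Fin N) → ℝ} : Competitor K δ B s ↔ H19.Good.Adm K δ B s := by
  constructor
  · intro h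
    exact ⟨h.smooth, h.compact_support, h.nonneg, h.mass,
      fun x hx => by rw [← newton_eq]; exact h.one_le x hx,
      fun x => by rw [← newton_eq]; exact h.bounded x⟩
  · intro h
    exact ⟨h.smooth, h.cpt, h.nonneg, h.mass,
      fun x hx => by rw [newton_eq]; exact h.ge_one x hx,
      fun x => by rw [newton_eq]; exact h.le_B x⟩

/-- the comparison with the capacity in terms of `η` and `δ` -/
lemma le_cap_iff {N : ℕ} (m : Measure (EuclideanSpace ℝ (Fin N))) [IsFiniteMeasure m]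
    (K : Set (EuclideanSpace ℝ (Fin N))) :
    m K ≤ cap K ↔ ∀ B : ℝ, ∀ η > 0, ∃ δ > 0, ∀ s, H19.Good.Adm K δ B s →
      m.real K - η ≤ H19.Good.cost s := by
  have hmK : m K = ENNReal.ofReal (m.real K) := by
    rw [Measure.real, ENNReal.ofReal_toReal (measure_ne_top _ _)]
  constructor
  · intro h B η hη
    by_cases h0 : m.real K - η < 0
    · exact ⟨1, one_pos, fun s hs => h0.le.trans (H19.Good.cost_nonneg hs.nonneg)⟩
    push Not at h0
    have h1 : ENNReal.ofReal (m.real K - η) < m K := by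
      rw [hmK, ENNReal.ofReal_lt_ofReal_iff (by linarith)]
      linarith
    have h2 := h1.trans_le (h.trans (iInf_le _ B))
    rw [lt_iSup_iff] at h2
    obtain ⟨δ, h2⟩ := h2
    rw [lt_iSup_iff] at h2
    obtain ⟨hδ, h2⟩ := h2
    refine ⟨δ, hδ, fun s hs => ?_⟩
    have h3 := h2.trans_le (iInf₂_le s (competitor_iff.2 hs))
    exact (ENNReal.ofReal_le_ofReal_iff (H19.Good.cost_nonneg hs.nonneg)).1 h3.le
  · intro h
    refine le_iInf fun B => ?_
    refine ENNReal.le_of_forall_pos_le_add fun η hη _ => ?_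
    obtain ⟨δ, hδ, hs⟩ := h B η (by exact_mod_cast hη)
    have h1 : ENNReal.ofReal (m.real K - η) ≤
        ⨆ (δ : ℝ) (_ : 0 < δ), ⨅ (s : EuclideanSpace ℝ (Fin N) → ℝ) (_ : Competitor K δ B s),
          ENNReal.ofReal (∫ x, s x * Real.posLog (s x)) := by
      refine le_iSup₂_of_le δ hδ (le_iInf₂ fun s hs' => ?_)
      exact ENNReal.ofReal_le_ofReal (hs s (competitor_iff.1 hs'))
    calc m K = ENNReal.ofReal (m.real K - η + η) := by rw [hmK]; congr 1; ring
      _ ≤ ENNReal.ofReal (m.real K - η) + ENNReal.ofReal η := ENNReal.ofReal_add_le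
      _ ≤ _ := by
          rw [ENNReal.ofReal_coe_nnreal]
          gcongr

/-- **Good measures for the exponential Dirichlet problem.** Let `N ≥ 3`, let `Ω ⊆ ℝ^N` be bounded and
open, and let `μ` be a finite signed Borel measure on `Ω`. Then `μ` is good for `g(t) = e^t - 1` if and
only if `μ⁺(K) ≤ cap(K)` for every compact `K ⊆ Ω`. -/
theorem old_result {N : ℕ} (hN : 3 ≤ N) (Ω : Set (EuclideanSpace ℝ (Fin N))) (hΩ : IsOpen Ω)
    (hb : Bornology.IsBounded Ω) (μ : SignedMeasure (EuclideanSpace ℝ (Fin N)))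
    (hμ : μ.totalVariation Ωᶜ = 0) :
    IsGood Ω μ ↔ ∀ K ⊆ Ω, IsCompact K → μ.toJordanDecomposition.posPart K ≤ cap K := by
  obtain ⟨R, hR⟩ := hb.subset_ball 0
  have hR' : Ω ⊆ Metric.ball 0 (max R 1) := hR.trans (Metric.ball_subset_ball (le_max_left _ _))
  have hRpos : 0 < max R 1 := by positivity
  have h12 : μ.toJordanDecomposition.posPart Ωᶜ = 0 ∧ μ.toJordanDecomposition.negPart Ωᶜ = 0 := by
    rw [SignedMeasure.totalVariation, Measure.add_apply, add_eq_zero] at hμ
    exact hμ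
  constructor
  · rintro ⟨u, hu, hg, hsol⟩ K hKΩ hK
    obtain ⟨S, hS, hS1, hS2⟩ := μ.toJordanDecomposition.mutuallySingular
    rw [le_cap_iff]
    intro B η hη
    refine H19.Good.necessity hN hΩ hb.measure_lt_top.ne μ.toJordanDecomposition.posPart
      μ.toJordanDecomposition.negPart hS.compl (by rwa [compl_compl]) hS2 hu hg hsol hKΩ hK B hη
  · intro h
    exact H19.Good.existence hN hΩ hRpos hR' μ.toJordanDecomposition.posPart
      μ.toJordanDecomposition.negPart h12.1 h12.2 fun K hKΩ hK => (le_cap_iff _ K).1 (h K hKΩ hK)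

end

end Pool.Agent.H30.GOM.Old
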